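import Pool.Agent.W4.QD.Stms4
import Pool.Agent.W505.VC.HOM
import Pool.Agent.W290.VC.Res

/-! QD-PRD (helper782): divisibility and coprimality of forms. -/

set_option autoImplicit false

namespace Pool.Agent.W782.QD

open Finset Polynomial Pool.Agent.W4.VC Pool.Agent.W4.QD Pool.Agent.W290.VC

theorem hom_C_mul (b : ℤ) (D : ℤ[X]) (N : ℕ) (u v : ℤ) :
    hom (C b * D) N u v = b * hom D N u v := by
  unfold hom
  rw [mul_sum]
  refine sum_congr rfl fun j _ => ?_
  rw [coeff_C_mul]
  ring

theorem hom_zero (N : ℕ) (u v : ℤ) : hom 0 N u v = 0 := by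
  unfold hom
  simp

theorem t_PRD (hH : S_HOM) : S_PRD := by
  intro g D N hg hD
  have hg0 : g ≠ 0 := by
    rintro rfl
    rw [Polynomial.map_zero] at hg
    exact hg.ne_zero rfl
  constructor
  · intro hdvd
    by_cases hD0 : D = 0
    · exact ⟨1, le_rfl, fun p u v _ _ _ => by rw [hD0, hom_zero]; exact dvd_zero _⟩
    obtain ⟨q, hq⟩ := hdvd
    obtain ⟨b, Q, hb, hQ⟩ := clear q
    have e : C b * D = g * Q := by
      apply Polynomial.map_injective (Int.castRingHom ℚ) Int.cast_injective
      simp only [Polynomial.map_mul, Polynomial.map_C, Int.coe_castRingHom, hQ, hq]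
      ring
    have hCb : (C b : ℤ[X]) ≠ 0 := C_ne_zero.2 hb
    have hQ0 : Q ≠ 0 := by
      rintro rfl
      rw [mul_zero] at e
      exact (mul_ne_zero hCb hD0) e
    have hdeg : g.natDegree + Q.natDegree ≤ N := by
      rw [← natDegree_mul hg0 hQ0, ← e, natDegree_mul hCb hD0, natDegree_C, zero_add]
      exact hD
    refine ⟨b.natAbs, Nat.one_le_iff_ne_zero.2 (Int.natAbs_ne_zero.2 hb), ?_⟩
    intro p u v hp hpb hpg
    have h1 := hH.1 g Q g.natDegree (N - g.natDegree) le_rfl (by omega) u v
    rw [← e, hom_C_mul, show g.natDegree + (N - g.natDegree) = N by omega] at h1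
    have h2 : (p : ℤ) ∣ b * hom D N u v := by
      rw [h1]
      exact Dvd.dvd.mul_right hpg _
    rcases (Nat.prime_iff_prime_int.1 hp).dvd_or_dvd h2 with h | h
    · exact absurd (Int.natCast_dvd.1 h) hpb
    · exact h
  · intro hnd
    have hcop : IsCoprime (g.map (Int.castRingHom ℚ)) (D.map (Int.castRingHom ℚ)) :=
      (Irreducible.coprime_iff_not_dvd hg).2 hnd
    obtain ⟨x, y, hxy⟩ := hcop
    obtain ⟨bx, U, hbx, hU⟩ := clear x
    obtain ⟨bY, W, hbY, hW⟩ := clear y
    have hE : (C bY * U) * g + (C bx * W) * D = C (bx * bY) := by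
      apply Polynomial.map_injective (Int.castRingHom ℚ) Int.cast_injective
      simp only [Polynomial.map_add, Polynomial.map_mul, Polynomial.map_C, Int.coe_castRingHom,
        hU, hW, Int.cast_mul, C_mul]
      linear_combination (C (bx : ℚ)) * (C (bY : ℚ)) * hxy
    have hlead : g.leadingCoeff ≠ 0 := leadingCoeff_ne_zero.2 hg0
    refine ⟨(bx * bY).natAbs * g.leadingCoeff.natAbs, ?_, ?_⟩
    · exact Nat.one_le_iff_ne_zero.2 (mul_ne_zero (Int.natAbs_ne_zero.2 (mul_ne_zero hbx hbY))
        (Int.natAbs_ne_zero.2 hlead))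
    · rintro p u v huv hp hpm ⟨h1, h2⟩
      apply hpm
      have : Fact p.Prime := ⟨hp⟩
      rw [← ZMod.intCast_zmod_eq_zero_iff_dvd] at h1 h2
      by_cases hv : (v : ZMod p) = 0
      · have hu : (u : ZMod p) ≠ 0 := by
          intro hu
          obtain ⟨x, y, hxy⟩ := huv
          have := congrArg (fun z : ℤ => (z : ZMod p)) hxy
          simp only [Int.cast_add, Int.cast_mul, hu, hv, mul_zero, add_zero, Int.cast_one] at this
          exact zero_ne_one this
        rw [hom_mod0 p g g.natDegree u v hv] at h1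
        have h1' := (mul_eq_zero.mp h1).resolve_right (pow_ne_zero _ hu)
        rw [ZMod.intCast_zmod_eq_zero_iff_dvd] at h1'
        exact Dvd.dvd.mul_left (Int.natCast_dvd.1 h1') _
      · rw [hom_mod p g g.natDegree le_rfl u v hv] at h1
        rw [hom_mod p D N hD u v hv] at h2
        have h1' := (mul_eq_zero.mp h1).resolve_left (pow_ne_zero _ hv)
        have h2' := (mul_eq_zero.mp h2).resolve_left (pow_ne_zero _ hv)
        have h3 := congrArg (fun P : ℤ[X] =>
          (P.map (Int.castRingHom (ZMod p))).eval ((u : ZMod p) / v)) hE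
        simp only [Polynomial.map_add, Polynomial.map_mul, eval_add, eval_mul, h1', h2', mul_zero,
          add_zero, Polynomial.map_C, eval_C, Int.coe_castRingHom] at h3
        refine Dvd.dvd.mul_right ?_ _
        rw [← Int.natCast_dvd, ← ZMod.intCast_zmod_eq_zero_iff_dvd]
        exact h3.symm

end Pool.Agent.W782.QD
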